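import Pool.Agent.W169.HF.DefsNF
import Pool.Agent.H128R3.EC.NF
import Pool.Agent.H128R3.GJC

set_option autoImplicit false

open Complex UpperHalfPlane MatrixGroups CongruenceSubgroup MeasureTheory
open scoped ComplexConjugate

namespace Pool.Agent.W174.HF

open Pool.Agent.W169.HF Pool.Agent.H471R3.GJ

/-- integrable majorant -/
theorem int_dom {c1 c2 R : ℝ} (h1 : 0 < c1) (h2 : 0 < c2) :
    ∃ M : ℝ, ∀ t : ℝ, Real.exp (-c1 * Real.exp (c2 * |t|)) * Real.exp (R * |t|) ≤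
      M * Real.exp (-(c1 * c2 ^ 2 / 4) * t ^ 2) := by
  obtain ⟨a, ha⟩ : ∃ a : ℝ, a = c1 * c2 ^ 2 / 2 := ⟨_, rfl⟩
  have ha0 : 0 < a := by rw [ha]; positivity
  refine ⟨Real.exp (R ^ 2 / (2 * a)), fun t => ?_⟩
  rw [← Real.exp_add, ← Real.exp_add]
  apply Real.exp_le_exp.2
  have h3 := Real.quadratic_le_exp_of_nonneg (x := c2 * |t|) (by positivity)
  have h4 : 0 ≤ c2 * |t| := by positivity
  have h5 : (c2 * |t|) ^ 2 / 2 ≤ Real.exp (c2 * |t|) := by linarith
  have h6 : |t| ^ 2 = t ^ 2 := sq_abs t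
  have h7 : c1 * ((c2 * |t|) ^ 2 / 2) = a * t ^ 2 := by
    rw [mul_pow, h6, ha]; ring
  have h8 : -c1 * Real.exp (c2 * |t|) ≤ -(a * t ^ 2) := by
    rw [← h7]
    have := mul_le_mul_of_nonneg_left h5 h1.le
    linarith
  have h9 : R * |t| ≤ a / 2 * t ^ 2 + R ^ 2 / (2 * a) := by
    rw [← h6]
    have h10 : 0 ≤ (a * |t| - R) ^ 2 / (2 * a) := by positivity
    have h11 : (a * |t| - R) ^ 2 / (2 * a) = a / 2 * |t| ^ 2 - R * |t| + R ^ 2 / (2 * a) := by
      field_simp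
      ring
    linarith
  have h12 : -(c1 * c2 ^ 2 / 4) * t ^ 2 = -(a * t ^ 2) + a / 2 * t ^ 2 := by rw [ha]; ring
  rw [h12]
  linarith

/-- boundedness of the transform in strips -/
theorem strip {H : Hk} (h : IsHk H) (R : ℝ) : ∃ M : ℝ, ∀ z : ℂ, |z.re| ≤ R →
    ‖∫ t : ℝ, ((Phi0 H t : ℝ) : ℂ) * cexp (z * t)‖ ≤ M := by
  obtain ⟨hc, -, -, C, c1, c2, h1, h2, hb⟩ := phi0 H h (ker H h)
  obtain ⟨M0, hM0⟩ := int_dom (R := R) h1 h2
  have hC : 0 ≤ C := by
    have := le_trans (abs_nonneg _) (hb 0)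
    exact nonneg_of_mul_nonneg_left this (Real.exp_pos _)
  have hi : Integrable (fun t : ℝ => C * (M0 * Real.exp (-(c1 * c2 ^ 2 / 4) * t ^ 2))) :=
    ((integrable_exp_neg_mul_sq (by positivity)).const_mul M0).const_mul C
  refine ⟨∫ t : ℝ, C * (M0 * Real.exp (-(c1 * c2 ^ 2 / 4) * t ^ 2)), fun z hz => ?_⟩
  apply norm_integral_le_of_norm_le hi
  refine Filter.Eventually.of_forall fun t => ?_
  rw [norm_mul, Complex.norm_real, Real.norm_eq_abs, Complex.norm_exp]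
  have e1 : (z * (t : ℂ)).re = z.re * t := by simp
  have e2 : z.re * t ≤ R * |t| := by
    calc z.re * t ≤ |z.re * t| := le_abs_self _
      _ = |z.re| * |t| := abs_mul _ _
      _ ≤ _ := mul_le_mul_of_nonneg_right hz (abs_nonneg _)
  rw [e1]
  calc |Phi0 H t| * Real.exp (z.re * t) ≤
        C * Real.exp (-c1 * Real.exp (c2 * |t|)) * Real.exp (R * |t|) :=
        mul_le_mul (hb t) (Real.exp_le_exp.2 e2) (Real.exp_pos _).le (by positivity)
    _ = C * (Real.exp (-c1 * Real.exp (c2 * |t|)) * Real.exp (R * |t|)) := by ring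
    _ ≤ _ := mul_le_mul_of_nonneg_left (hM0 t) hC

/-- the Mellin transform of a real function -/
theorem mellin_conj' (φ : ℝ → ℝ) (s : ℂ) :
    mellin (fun y : ℝ => ((φ y : ℝ) : ℂ)) (conj s) =
      conj (mellin (fun y : ℝ => ((φ y : ℝ) : ℂ)) s) := by
  unfold mellin
  rw [← integral_conj]
  refine setIntegral_congr_fun measurableSet_Ioi fun t ht => ?_
  have ht' : 0 < t := ht
  simp only [smul_eq_mul, map_mul, Complex.conj_ofReal]
  congr 1
  have h1 : ((t : ℝ) : ℂ).arg ≠ Real.pi := by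
    rw [Complex.arg_ofReal_of_nonneg ht'.le]
    exact Real.pi_pos.ne
  have h2 := Complex.cpow_conj ((t : ℝ) : ℂ) (s - 1) h1
  rw [Complex.conj_ofReal] at h2
  rw [← h2]
  congr 1
  rw [map_sub, map_one]

theorem nf1 : S_NF1 := by
  intro N _ f w hf
  have hf' : Pool.Agent.H128R3.EC.IsNorm N f w := ⟨hf.one, hf.real, hf.sign, hf.fricke⟩
  obtain ⟨B, hH⟩ := Pool.Agent.H128R3.EC.nf_isHk f hf'
  set H := Pool.Agent.H128R3.EC.nfHk N f B w with hHdef
  have hk2 : (H.k : ℂ) = 2 := by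
    show ((2 : ℝ) : ℂ) = 2
    norm_num
  have hd := Pool.Agent.H128R3.GJB.mellin_diff hH
  refine ⟨mellin (fun y : ℝ => ((H.φ y : ℝ) : ℂ)),
    ⟨hd, fun s hs => Pool.Agent.H128R3.EC.nf_dir f hf' hH s hs⟩, ?_, mellin_conj' H.φ, ?_⟩
  · intro s
    have h3 := Pool.Agent.H128R3.GJB.mellin_fe hH s
    rw [hk2] at h3
    have h4 : ((-1 : ℂ)) ^ Pool.Agent.H128R3.GJB.pr H = (w : ℂ) := by
      have hε : H.ε = w := rfl
      unfold Pool.Agent.H128R3.GJB.pr
      rw [hε]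
      rcases hf.sign with h | h
      · rw [if_pos h, h]
        norm_num
      · rw [if_neg (by rw [h]; norm_num), h]
        norm_num
    rw [h4] at h3
    exact h3
  · intro a b
    have hkp : 0 < kp H := HMel.kp_pos H hH
    obtain ⟨M, hM⟩ := strip hH (max |(a - H.k / 2) / kp H| |(b - H.k / 2) / kp H|)
    refine ⟨M, fun s ha hb => ?_⟩
    have hkc : ((kp H : ℝ) : ℂ) ≠ 0 := by exact_mod_cast hkp.ne'
    have e1 : sH H ((s - ((H.k / 2 : ℝ) : ℂ)) / ((kp H : ℝ) : ℂ)) = s := by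
      unfold sH
      field_simp
      ring
    have e2 := mel H hH (ker H hH) ((s - ((H.k / 2 : ℝ) : ℂ)) / ((kp H : ℝ) : ℂ))
    rw [e1] at e2
    rw [e2]
    apply hM
    rw [Complex.div_ofReal_re, Complex.sub_re, Complex.ofReal_re]
    have h5 : (a - H.k / 2) / kp H ≤ (s.re - H.k / 2) / kp H :=
      div_le_div_of_nonneg_right (by linarith) hkp.le
    have h6 : (s.re - H.k / 2) / kp H ≤ (b - H.k / 2) / kp H :=
      div_le_div_of_nonneg_right (by linarith) hkp.le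
    exact abs_le_max_abs_abs h5 h6

end Pool.Agent.W174.HF
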